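import Mathlib
import Pool.Agent.W751.CV.Stm
import Pool.Agent.W751.CD.Dyn

/-! # CV-HB: small values on a disc containing the critical points and the origin -/

set_option autoImplicit false

open Polynomial Filter Topology

namespace Pool.Agent.W597.CV

open Pool.Agent.W751.CD

theorem hb : Pool.Agent.W751.CV.S_HB := by
  intro hCRIT p ρ δ r N _ hδ hρr hpr hN z hz α hα hsm c hc
  have hev : ∀ w, (C α * P z).eval w = α * (P z).eval w := fun w => by
    rw [eval_mul, eval_C]
  have hc' : (derivative (P z)).eval c = 0 := by
    rw [derivative_C_mul, eval_mul, eval_C] at hc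
    exact (mul_eq_zero.1 hc).resolve_left hα
  have h1 : ‖c - p‖ ≤ ρ := hCRIT N p ρ z c (by omega) hz hc'
  have h2 : ‖(C α * P z).eval c‖ ≤ δ / 4 := by
    rw [hev]
    exact hsm c (h1.trans hρr)
  right
  apply Att.shift
  refine att_of_inner hδ (fun w hw => ?_) (by linarith)
  rw [hev]
  apply hsm
  have := norm_sub_le w p
  linarith

end Pool.Agent.W597.CV
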